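import Mathlib
import Pool.Agent.Y18.LC.Final
import Pool.Agent.Y447.LC.RAM
import Pool.Agent.Y447.LC.FLD
import Pool.Agent.Y758.LC.NSB
import Pool.Agent.Y758.LC.DSC
import Pool.Agent.Y944.LC.UNR
import Pool.Agent.Y38.LC.GLF
import Pool.Agent.Y287.LC.CHB
import Pool.Agent.Y86.LC.CYA
import Pool.Agent.Y419.LC.PRD
import Pool.Agent.Y349.LC.FAM

/-!
# Leopoldt's conjecture for composites with abelian fields of exponent `p`

Let `p` be an odd prime, `k` a number field (Galois or not) of degree prime to `p` in which `p` is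
unramified, and suppose that Leopoldt's conjecture holds for `k` and `p`. We consider the composites
of `k` with the finite abelian extensions `F₀ / ℚ` of exponent `p` in which `p` is unramified and in
which only primes `q` ramify that have a single prime of `k` above them.

(1) There is `v`, depending only on `k` and `p`, such that for all `F₀`, of degree `p ^ m`,
Leopoldt's conjecture at `p` holds for the composite `k L` for at least `(p ^ (m - v) - 1) / (p - 1)`
of the `(p ^ m - 1) / (p - 1)` subfields `L` of `F₀` of degree `p`. The same holds over any base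
`M ⊆ F₀` such that Leopoldt's conjecture holds for `k M`, with `v` depending on `M`.

(2) In an infinite extension `A / ℚ` of this type there is an infinite extension `M / ℚ` such that
Leopoldt's conjecture at `p` holds for all number fields contained in `k M`.

(3) If some automorphism permutes the embeddings of `k` in one cycle (for example if the degree of
`k` is a prime, or if its Galois group is a symmetric group) then there are infinitely many primes
`q ≡ 1 (mod p)` with a single prime of `k` above `q`, and for every infinite set `Q` of such primes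
there is such an `M` unramified outside `Q`.

(4) Unconditionally, for all odd primes `n ≠ p` there are infinitely many totally real fields `k` of
degree `n`, not Galois over `ℚ`, and for each of them an infinite abelian extension `M / ℚ` of
exponent `p` such that Leopoldt's conjecture at `p` holds for all number fields contained in `k M`.

Proof. Let `P = Gal(k F₀ / k)`, let `U` be the group of the units of `k F₀` of norm one to `F₀` which
are congruent to `1` modulo `p ^ (n + 1)`, and `V` the group of the `p ^ n`-th powers of those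
congruent to `1` modulo `p`. By the hypothesis on the ramification and Leopoldt's conjecture for `k` the
order of the group of the elements of `U / V` invariant under `P` is bounded in terms of `k` and
`p`. Therefore `U / V` is killed by an element of `ℤ[P]` whose augmentation is a small power of `p`, and
by the uncertainty principle such an element cannot be divisible by a high power of `p` at too many
characters of `P`. At the other characters, with kernel `Gal(k F₀ / k L)`, all relative units of
`k L` close to `1` are `p`-th powers, and Leopoldt's conjecture for `k L` follows from that for the abelian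
field `L` (Ax, Brumer). (3) uses Chebotarev's theorem of the starting library, (4) the totally real
fields of the starting result InfinitelyMany.

The parts were proved together with helpers 37, 38, 44, 86, 287, 349, 419, 447, 548, 758, 847, 899
and 944.
-/

set_option autoImplicit false

namespace Pool.Agent.Results.MP_5f2860_nt.CompositesWithAbelianFields

open NumberField Module Filter Topology

/-- Leopoldt's conjecture for the number field `K` and the prime `p`, in the form of the frozen
statement: units of `K` congruent to `1` at all primes above `p` which are multiplicatively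
independent over `ℤ` stay independent over `ℤ_p` in the product of the completions above `p`. -/
def Leopoldt (K : Type) [Field K] [NumberField K] (p : ℕ) [Fact p.Prime] : Prop :=
  ∀ (n : ℕ) (ε : Fin n → (𝓞 K)ˣ),
    (∀ i, ((ε i : 𝓞 K) - 1) ∈ (Ideal.span {((p : ℕ) : 𝓞 K)}).radical) →
    (∀ c : Fin n → ℤ, ∏ i, ε i ^ c i = 1 → c = 0) →
    ∀ (a : Fin n → PadicInt p) (m : ℕ → Fin n → ℤ),
      (∀ i, Tendsto (fun k => ((m k i : ℤ) : PadicInt p)) atTop (𝓝 (a i))) →
      (∀ N : ℕ, ∀ᶠ k in atTop,
        ((p : ℕ) : 𝓞 K) ^ N ∣ (((∏ i, ε i ^ m k i : (𝓞 K)ˣ) : 𝓞 K) - 1)) →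
      a = 0

/-- The field `L ⊆ Ω` is a number field and satisfies Leopoldt's conjecture at `p`. -/
def LeopoldtFor {Ω : Type} [Field Ω] [CharZero Ω] (L : IntermediateField ℚ Ω) (p : ℕ)
    [Fact p.Prime] : Prop :=
  ∃ _ : NumberField L, Leopoldt L p

/-- The prime number `q` is unramified in the (possibly infinite) algebraic extension `E` of `ℚ`:
`(q)` is a radical ideal of the ring of the algebraic integers of `E`. -/
def Unramified (E : Type) [Field E] (q : ℕ) : Prop := (Ideal.span {(q : 𝓞 E)}).IsRadical

/-- There is only one prime of `E` above the prime number `q`. -/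
def Nonsplit (E : Type) [Field E] (q : ℕ) : Prop :=
  ∀ P P' : Ideal (𝓞 E), P.IsPrime → P'.IsPrime → (q : 𝓞 E) ∈ P → (q : 𝓞 E) ∈ P' → P = P'

/-- `A / ℚ` is a (possibly infinite) Galois extension, with a commutative Galois group of exponent
dividing `p`. -/
def ElementaryAbelian (p : ℕ) (A : Type) [Field A] [Algebra ℚ A] : Prop :=
  IsGalois ℚ A ∧ (∀ g h : A ≃ₐ[ℚ] A, g * h = h * g) ∧ ∀ g : A ≃ₐ[ℚ] A, g ^ p = 1

/-- The conditions on the ramification of `A / ℚ`: `p` is unramified, and every ramified prime has
only one prime of `k` above it. -/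
def Admissible (k A : Type) [Field k] [Field A] (p : ℕ) : Prop :=
  Unramified A p ∧ ∀ q : ℕ, q.Prime → Unramified A q ∨ Nonsplit k q

/-- The degree of `k` is prime, or some automorphism of the algebraic closure of `ℚ` permutes the
embeddings of `k` in one cycle. -/
def HasCycle (k : Type) [Field k] [CharZero k] : Prop :=
  (finrank ℚ k).Prime ∨ ∃ g : AlgebraicClosure ℚ ≃+* AlgebraicClosure ℚ,
    ∀ τ τ' : k →+* AlgebraicClosure ℚ, ∃ j : ℕ, ∀ x : k, (⇑g)^[j] (τ x) = τ' x

open Pool.Agent.Y18.LC in
/-- **Main result.** -/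
theorem result (Ω : Type) [Field Ω] [CharZero Ω] (p : ℕ) [Fact p.Prime] (hp : p ≠ 2) :
    (∀ k : IntermediateField ℚ Ω, FiniteDimensional ℚ k → Unramified k p → ¬ p ∣ finrank ℚ k →
      (∀ (r : ℕ) (M : IntermediateField ℚ Ω), ElementaryAbelian p M → finrank ℚ M = p ^ r →
        Unramified M p → LeopoldtFor (k ⊔ M) p →
        ∃ v : ℕ, ∀ (m : ℕ) (F₀ : IntermediateField ℚ Ω), M ≤ F₀ → ElementaryAbelian p F₀ →
          finrank ℚ F₀ = p ^ (r + m) → Admissible k F₀ p →
          p ^ (m - v) ≤ 1 + (p - 1) * Nat.card {L : IntermediateField ℚ Ω // M ≤ L ∧ L ≤ F₀ ∧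
            finrank ℚ L = p ^ (r + 1) ∧ LeopoldtFor (k ⊔ L) p}) ∧
      (LeopoldtFor k p → ∀ A : IntermediateField ℚ Ω, ElementaryAbelian p A →
        ¬ FiniteDimensional ℚ A → Admissible k A p →
        ∃ M : IntermediateField ℚ Ω, M ≤ A ∧ ¬ FiniteDimensional ℚ M ∧
          ∀ L : IntermediateField ℚ Ω, L ≤ k ⊔ M → FiniteDimensional ℚ L → LeopoldtFor L p) ∧
      (LeopoldtFor k p → HasCycle k → IsAlgClosed Ω →
        {q : ℕ | q.Prime ∧ q % p = 1 ∧ Nonsplit k q}.Infinite ∧
        ∀ Q ⊆ {q : ℕ | q.Prime ∧ q % p = 1 ∧ Nonsplit k q}, Q.Infinite →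
          ∃ M : IntermediateField ℚ Ω, ElementaryAbelian p M ∧ ¬ FiniteDimensional ℚ M ∧
            (∀ l : ℕ, l.Prime → l ∉ Q → Unramified M l) ∧
            ∀ L : IntermediateField ℚ Ω, L ≤ k ⊔ M → FiniteDimensional ℚ L →
              LeopoldtFor L p)) ∧
    (IsAlgClosed Ω → ∀ n : ℕ, n.Prime → 3 ≤ n → p ≠ n →
      ∀ (ι : Type) [Fintype ι] (E : ι → Type) [∀ i, Field (E i)] [∀ i, NumberField (E i)],
        ∃ k M : IntermediateField ℚ Ω, finrank ℚ k = n ∧ IsTotallyReal k ∧ ¬ IsGalois ℚ k ∧
          (∀ i, IsEmpty (k ≃+* E i)) ∧ ElementaryAbelian p M ∧ ¬ FiniteDimensional ℚ M ∧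
          ∀ L : IntermediateField ℚ Ω, L ≤ k ⊔ M → FiniteDimensional ℚ L → LeopoldtFor L p) := by
  refine ⟨fun k hk hunr hdeg => ⟨?_, ?_, ?_⟩, ?_⟩
  · intro r M hMA hM hMu hML
    obtain ⟨v, hv⟩ := stepO Pool.Agent.Y447.LC.ram Pool.Agent.Y447.LC.fld Pool.Agent.Y944.LC.unr
      Pool.Agent.Y758.LC.nsb Pool.Agent.Y758.LC.dsc k M p hp hk hunr hdeg r hM hMA hMu hML
    exact ⟨v, fun m F₀ h1 h2 h3 h4 => hv m F₀ h1 h2 h3 h4.1 h4.2⟩
  · intro hkL A hA hAinf hAr
    exact tower Pool.Agent.Y447.LC.ram Pool.Agent.Y447.LC.fld Pool.Agent.Y944.LC.unr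
      Pool.Agent.Y758.LC.nsb Pool.Agent.Y758.LC.dsc k p hp hk hunr hdeg hkL A hA hAinf hAr.1 hAr.2
  · intro hkL hcyc hΩ
    have hnf : NumberField k := nf_of k hk
    refine part3 Pool.Agent.Y38.LC.glf Pool.Agent.Y287.LC.chb Pool.Agent.Y86.LC.cya
      Pool.Agent.Y447.LC.ram Pool.Agent.Y447.LC.fld Pool.Agent.Y944.LC.unr
      Pool.Agent.Y758.LC.nsb Pool.Agent.Y758.LC.dsc k p hp hk hunr hdeg hkL ?_
    rcases hcyc with h | h
    · exact Pool.Agent.Y419.LC.prd k h
    · exact h
  · intro hΩ n hn hn3 hpn ι _ E _ _
    exact part4 Pool.Agent.Y38.LC.glf Pool.Agent.Y287.LC.chb Pool.Agent.Y86.LC.cya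
      Pool.Agent.Y419.LC.prd Pool.Agent.Y349.LC.fam
      Pool.Agent.Y447.LC.ram Pool.Agent.Y447.LC.fld Pool.Agent.Y944.LC.unr
      Pool.Agent.Y758.LC.nsb Pool.Agent.Y758.LC.dsc n p hn hn3 hp hpn ι E

end Pool.Agent.Results.MP_5f2860_nt.CompositesWithAbelianFields
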