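import Pool.Agent.Y194.MU.ST

/-!
# Leopoldt defects and torsion in pro-`p` towers: convergence of the normalised weights

Let `p` be a prime, `S` a set of primes containing those above `p`, and for a number field `F` let
`X_S(F) ≅ ℤ_p^a × ∏ ℤ/p^{v_i}` be the Galois group of the maximal abelian pro-`p` extension of `F` unramified outside `S`
(at the finite places). By class field theory `a = r_2(F) + 1 + δ(F, p)` with the Leopoldt defect `δ(F, p)`, and the number of the
homomorphisms `Gal(Ω/F) → ℤ/p^k` which kill the inertia groups outside `S` is `p^{a k + ∑ min(k, v_i)}`.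

Let `K ⊆ E_0 ⊆ E_1 ⊆ …` be number fields, `E_{n+1}/E_n` Galois of degree `p^{m_n}`, with at most `t_n` places of `E_n` outside
`S` which ramify in `E_{n+1}`. Let `a_n, (v_i(n))` belong to `X_S(E_n)`.

Theorem.

1. If `∑_n m_n t_n / [E_n : K] < ∞`, then for every `j` the weights

     `(a_n (1 - p^{-j}) + ∑_i (1 - p^{-min(j, v_i(n))})) / [E_n : K]`

   converge for `n → ∞`, and so do `(a_n + #{i : v_i(n) ≥ j}) / [E_n : K]` and `#{i : v_i(n) = j} / [E_n : K]`, for `j ≥ 1`.
2. If there are no exceptional places, `((a_n - 1) (1 - p^{-j}) + ∑_i (1 - p^{-min(j, v_i(n))})) / [E_n : K]` and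
   `(a_n - 1 + ∑_i (1 - p^{-v_i(n)})) / [E_n : K]` do not increase with `n`.

For instance, in a tower of totally real fields `a_n - 1 = δ(E_n, p)`, so all the quotients
`(δ(E_n, p) + #{i : v_i(n) ≥ j}) / [E_n : K]` converge, and their limits `c_1 ≥ c_2 ≥ …` bound
`limsup δ(E_n, p) / [E_n : K]`. Leopoldt's conjecture says `δ = 0`. For `j = 1` the convergence (of the generator ranks)
is well known; for `j > 1` it is new. Towers may be infinitely ramified, in contrast to the inequality of
`MP_5f2860_nt.DefectInPExtensions` where `S` contains all the ramified primes and only the weights for `j = ∞` occur.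

The theorem is proved with an additional set `T` of primes, outside `S`, above which complete splitting is required
(logarithmic and `S`-`T`-versions of the conjecture), and for arbitrary `S`.
-/

set_option autoImplicit false

open IsDedekindDomain NumberField Filter Topology Pool.Agent.Y194.TS Pool.Agent.Y194.MU

namespace Pool.Agent.Results.MP_5f2860_nt.DefectDistribution

section

variable {K Ω : Type} [Field K] [Field Ω] [Algebra K Ω]

/-- a tower of number fields `E_n`, where `E_{n+1}/E_n` is a Galois extension of degree `p^(m n)` in which at most `t n` places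
not above `S` are exceptional: they ramify or, if they lie above `T`, do not split completely -/
structure Tower (p : ℕ) (S T : Set (HeightOneSpectrum (𝓞 K)))
    (E : ℕ → IntermediateField K Ω) (m t : ℕ → ℕ) : Prop where
  finite : ∀ n, FiniteDimensional K (E n)
  le : ∀ n, E n ≤ E (n + 1)
  galois : ∀ n, ((E (n + 1)).fixingSubgroup.subgroupOf (E n).fixingSubgroup).Normal
  degree : ∀ n, Module.finrank K (E (n + 1)) = p ^ m n * Module.finrank K (E n)
  few : ∀ n, FewST S T (E n).fixingSubgroup (E (n + 1)).fixingSubgroup (t n)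

/-- the homomorphisms `Gal(Ω/F) → ℤ/p^k` killing the local groups are `p^{a k + ∑ min(k, v_i)}` in number, for all
`k` -/
def HasExponents (p : ℕ) (S T : Set (HeightOneSpectrum (𝓞 K))) (F : IntermediateField K Ω)
    (a : ℕ) (v : Multiset ℕ) : Prop :=
  ∀ k, Finite (SChars S T F.fixingSubgroup (p ^ k)) ∧
    Nat.card (SChars S T F.fixingSubgroup (p ^ k)) = p ^ (a * k + (v.map (fun i => min k i)).sum)

end

/-- convergence of the normalised weights; monotonicity in towers without exceptional places -/
theorem result {K Ω : Type} [Field K] [NumberField K] [Field Ω] [Algebra K Ω] [IsAlgClosure K Ω]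
    {p : ℕ} [Fact p.Prime] {S T : Set (HeightOneSpectrum (𝓞 K))}
    {E : ℕ → IntermediateField K Ω} {m t : ℕ → ℕ} (hE : Tower p S T E m t)
    {a : ℕ → ℕ} {v : ℕ → Multiset ℕ} (hv : ∀ n, HasExponents p S T (E n) (a n) (v n)) :
    ((Summable fun n => (m n * t n : ℝ) / Module.finrank K (E n)) →
      (∀ j, ∃ l : ℝ,
        Tendsto (fun n => trunc p j (a n) (v n) / Module.finrank K (E n)) atTop (𝓝 l)) ∧
      ∀ j, 1 ≤ j →
        (∃ l : ℝ, Tendsto (fun n => ((a n : ℝ) + (Multiset.countP (fun i => j ≤ i) (v n) : ℕ)) /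
          Module.finrank K (E n)) atTop (𝓝 l)) ∧
        ∃ l : ℝ, Tendsto (fun n => (Multiset.count j (v n) : ℝ) / Module.finrank K (E n))
          atTop (𝓝 l)) ∧
    ((∀ n, t n = 0) →
      (∀ j, Antitone fun n =>
        (trunc p j (a n) (v n) - (1 - ((p : ℝ)⁻¹) ^ j)) / Module.finrank K (E n)) ∧
      Antitone fun n => (full p (a n) (v n) - 1) / Module.finrank K (E n)) := by
  have hgal : IsGalois K Ω := IsAlgClosure.isGalois K Ω
  have hp2 : (2 : ℝ) ≤ p := by exact_mod_cast (Fact.out : p.Prime).two_le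
  have hinv : (p : ℝ)⁻¹ < 1 := inv_lt_one_of_one_lt₀ (by linarith)
  have hinv0 : (0 : ℝ) ≤ (p : ℝ)⁻¹ := by positivity
  have hpos : ∀ n, (0 : ℝ) < Module.finrank K (E n) := fun n => by
    have := hE.finite n
    exact_mod_cast Module.finrank_pos
  have hlev : ∀ n, (∀ j, trunc p j (a (n + 1)) (v (n + 1)) +
      ((p : ℝ) ^ m n - 1) * (1 - ((p : ℝ)⁻¹) ^ j) ≤
      (p : ℝ) ^ m n * (trunc p j (a n) (v n) + t n * m n * (1 - (p : ℝ)⁻¹))) ∧
      full p (a (n + 1)) (v (n + 1)) + ((p : ℝ) ^ m n - 1) ≤
      (p : ℝ) ^ m n * (full p (a n) (v n) + t n * m n * (1 - (p : ℝ)⁻¹)) := by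
    intro n
    have i1 := hE.finite (n + 1)
    exact pairST (p := p) S T (hE.le n) (hE.galois n) (hE.degree n) (hE.few n) (hv n)
      (hv (n + 1))
  have hD : ∀ n, (Module.finrank K (E (n + 1)) : ℝ) = (p : ℝ) ^ m n * Module.finrank K (E n) :=
    fun n => by exact_mod_cast hE.degree n
  have hj0 : ∀ j : ℕ, 0 ≤ 1 - ((p : ℝ)⁻¹) ^ j := fun j => by
    have := pow_le_one₀ (n := j) hinv0 hinv.le
    linarith
  have hpm : ∀ n, (1 : ℝ) ≤ (p : ℝ) ^ m n := fun n => one_le_pow₀ (by linarith)
  constructor
  · intro hs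
    have h1 : ∀ j, ∃ l : ℝ, Tendsto (fun n => trunc p j (a n) (v n) /
        Module.finrank K (E n)) atTop (𝓝 l) := by
      intro j
      refine conv_almost (s := fun n => (m n * t n : ℝ) / Module.finrank K (E n))
        (fun n => div_nonneg (trunc_nonneg _ _ _) (hpos n).le)
        (fun n => div_nonneg (by positivity) (hpos n).le) hs fun n => ?_
      rw [← add_div, div_le_div_iff₀ (hpos (n + 1)) (hpos n), hD]
      have h2 := (hlev n).1 j
      have h3 : 0 ≤ ((p : ℝ) ^ m n - 1) * (1 - ((p : ℝ)⁻¹) ^ j) :=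
        mul_nonneg (by linarith [hpm n]) (hj0 j)
      have h4 : (t n * m n : ℝ) * (1 - (p : ℝ)⁻¹) ≤ m n * t n := by
        have : (0 : ℝ) ≤ t n * m n := by positivity
        nlinarith
      have h5 : trunc p j (a (n + 1)) (v (n + 1)) ≤
          (p : ℝ) ^ m n * (trunc p j (a n) (v n) + m n * t n) := by
        have h6 := mul_le_mul_of_nonneg_left (add_le_add_right h4 (trunc p j (a n) (v n)))
          (zero_le_one.trans (hpm n))
        linarith
      calc trunc p j (a (n + 1)) (v (n + 1)) * Module.finrank K (E n)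
          ≤ ((p : ℝ) ^ m n * (trunc p j (a n) (v n) + m n * t n)) * Module.finrank K (E n) :=
            mul_le_mul_of_nonneg_right h5 (hpos n).le
        _ = _ := by ring
    refine ⟨h1, fun j hj => ?_⟩
    obtain ⟨j, rfl⟩ := Nat.exists_eq_add_of_le' hj
    exact seq_conv2 h1 j
  · intro ht
    refine ⟨fun j => antitone_nat_of_succ_le fun n => ?_, antitone_nat_of_succ_le fun n => ?_⟩
    · rw [div_le_div_iff₀ (hpos (n + 1)) (hpos n), hD]
      have h2 := (hlev n).1 j
      rw [ht n, Nat.cast_zero, zero_mul, zero_mul, add_zero] at h2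
      have h3 : trunc p j (a (n + 1)) (v (n + 1)) - (1 - ((p : ℝ)⁻¹) ^ j) ≤
          (p : ℝ) ^ m n * (trunc p j (a n) (v n) - (1 - ((p : ℝ)⁻¹) ^ j)) := by linarith
      calc (trunc p j (a (n + 1)) (v (n + 1)) - (1 - ((p : ℝ)⁻¹) ^ j)) * Module.finrank K (E n)
          ≤ ((p : ℝ) ^ m n * (trunc p j (a n) (v n) - (1 - ((p : ℝ)⁻¹) ^ j))) *
            Module.finrank K (E n) := mul_le_mul_of_nonneg_right h3 (hpos n).le
        _ = _ := by ring
    · rw [div_le_div_iff₀ (hpos (n + 1)) (hpos n), hD]
      have h2 := (hlev n).2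
      rw [ht n, Nat.cast_zero, zero_mul, zero_mul, add_zero] at h2
      have h3 : full p (a (n + 1)) (v (n + 1)) - 1 ≤
          (p : ℝ) ^ m n * (full p (a n) (v n) - 1) := by linarith
      calc (full p (a (n + 1)) (v (n + 1)) - 1) * Module.finrank K (E n)
          ≤ ((p : ℝ) ^ m n * (full p (a n) (v n) - 1)) *
            Module.finrank K (E n) := mul_le_mul_of_nonneg_right h3 (hpos n).le
        _ = _ := by ring

end Pool.Agent.Results.MP_5f2860_nt.DefectDistribution
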