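import Pool.Agent.Y194.TS.Num

/-!
# The Leopoldt defect in Galois extensions of `p`-power degree: a weighted Schreier inequality

Let `K` be a number field, `p` a prime and `S` a set of primes of `K`. For a finite extension `F` of `K` let
`X(F)` be the Galois group of the maximal abelian pro-`p` extension of `F` unramified outside `S` (no condition at
the infinite places); for a finite set `S` it is of the form `ℤ_p ^ a × ∏_j ℤ / p ^ {v_j}`, and for `S` containing
the primes above `p` class field theory gives `a = r_2(F) + 1 + δ(F, p)` with the Leopoldt defect `δ(F, p)`.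

Theorem. Let `F/K` be a Galois extension of degree `p ^ n`, unramified outside `S`, `X(K)` of type
`(a; v_1, v_2, …)` and `X(F)` of type `(a'; v'_1, v'_2, …)`. Then

  `a' - 1 + ∑ (1 - p ^ {-v'_j}) ≤ [F : K] (a - 1 + ∑ (1 - p ^ {-v_j}))`.

So `δ(F, p) + ∑ (1 - p ^ {-v'_j}) ≤ [F : K] (δ(K, p) + ∑ (1 - p ^ {-v_j}))`. Every Galois extension of `p`-power
degree is covered: `S` may contain the ramified primes. If Leopoldt's conjecture holds for `K` and the torsion
subgroup of `X(K)` is trivial, it holds for `F` and the torsion subgroup of `X(F)` is trivial (`p`-rational fields,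
known). In general the Leopoldt defect of `F` is bounded by the torsion of `X(K)`, where a cyclic factor of order
`p ^ v` counts with the weight `1 - p ^ {-v}` only; for the classical inequality of Schreier the weight is `1`.

Proof. The module `T` of all functions `d : Gal(Ω/K) → ℚ_p/ℤ_p` which are additive with respect to left
multiplication by elements of `Gal(Ω/F)` (and whose restriction to `Gal(Ω/F)` is a character belonging to
`X(F)`) is `Hom(X(F), ℚ_p/ℤ_p) × (ℚ_p/ℤ_p) ^ {[F : K] - 1}`. The group `Gal(F/K)` acts on `T`, with the characters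
of `X(K)` as invariants. For a discrete module `H` and `s_k(H) = log_p #H[p^{k+1}] - log_p #H[p^k]` let
`D(H) = ∑ p^{-k} s_k(H)`. For an element `X = γ - 1` with `γ ^ p = 1` on `H` one shows `D(H) ≤ p D(ker X)`: by
induction, using `#(ker X on p H : p (ker X)) #H[p] ≤ #(ker X)[p] ^ p`. Then `D(T) ≤ [F : K] D(T^{Gal(F/K)})`.
-/

set_option autoImplicit false

open IsDedekindDomain NumberField Pool.Agent.Y194.TS

namespace Pool.Agent.Results.MP_5f2860_nt.DefectInPExtensions

/-- `∑ (1 - p ^ (-v_j))` -/
noncomputable def weight (p : ℕ) (v : Multiset ℕ) : ℝ := (v.map (fun j => 1 - ((p : ℝ)⁻¹) ^ j)).sum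

lemma r2_le {K F : Type} [Field K] [NumberField K] [Field F] [NumberField F] [Algebra K F]
    [IsGalois K F] : Module.finrank K F * InfinitePlace.nrComplexPlaces K ≤
      InfinitePlace.nrComplexPlaces F := by
  classical
  have h1 := InfinitePlace.card_add_two_mul_card_eq_rank K
  have h2 := InfinitePlace.card_add_two_mul_card_eq_rank F
  have h3 := InfinitePlace.card_eq_nrRealPlaces_add_nrComplexPlaces K
  have h4 := InfinitePlace.card_eq_nrRealPlaces_add_nrComplexPlaces F
  have h5 : Module.finrank ℚ K * Module.finrank K F = Module.finrank ℚ F :=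
    Module.finrank_mul_finrank ℚ K F
  have h6 : Fintype.card (InfinitePlace F) ≤ Fintype.card (InfinitePlace K) * Module.finrank K F := by
    rw [InfinitePlace.card_eq_card_isUnramifiedIn K F]
    have h7 : (Finset.univ.filter (InfinitePlace.IsUnramifiedIn F (k := K))).card +
      ((Finset.univ.filter (InfinitePlace.IsUnramifiedIn F (k := K)))ᶜ).card =
        Fintype.card (InfinitePlace K) := Finset.card_add_card_compl _
    rw [← h7, add_mul]
    exact Nat.add_le_add_left (Nat.mul_le_mul_left _ (Nat.div_le_self _ _)) _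
  nlinarith

theorem result {K Ω : Type} [Field K] [NumberField K] [Field Ω] [Algebra K Ω] [IsAlgClosure K Ω]
    (p : ℕ) [Fact p.Prime] (S : Set (HeightOneSpectrum (𝓞 K)))
    (F : IntermediateField K Ω) [NumberField F] [IsGalois K F] (n : ℕ)
    (hdeg : Module.finrank K F = p ^ n) (hun : ∀ σ ∈ Inertia Ω S, σ ∈ F.fixingSubgroup)
    (a a' : ℕ) (v v' : Multiset ℕ)
    (hK : HasType p a v fun k =>
      Nat.card {f : (Ω ≃ₐ[K] Ω) → ZMod (p ^ k) // Char (Inertia Ω S) f})
    (hF : HasType p a' v' fun k => Nat.card {f : F.fixingSubgroup → ZMod (p ^ k) //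
      Char {σ : F.fixingSubgroup | (σ : Ω ≃ₐ[K] Ω) ∈ Inertia Ω S} f}) :
    (a' : ℝ) - 1 + weight p v' ≤ (p : ℝ) ^ n * (a - 1 + weight p v) ∧
    ∀ δ δ' : ℤ, (a : ℤ) = InfinitePlace.nrComplexPlaces K + 1 + δ →
      (a' : ℤ) = InfinitePlace.nrComplexPlaces F + 1 + δ' →
      (δ' : ℝ) + weight p v' ≤ (p : ℝ) ^ n * (δ + weight p v) := by
  have hgal : IsGalois K Ω := IsAlgClosure.isGalois K Ω
  have hfd : FiniteDimensional K F := Module.finite_of_finrank_pos (by
    rw [hdeg]
    exact pow_pos (Fact.out (p := p.Prime)).pos n)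
  have h1 : (a' : ℝ) - 1 + weight p v' ≤ (p : ℝ) ^ n * (a - 1 + weight p v) := by
    have hone : ∀ (k : ℕ), (((1 : (Ω ≃ₐ[K] Ω) →* Matrix.GeneralLinearGroup (Fin 1) ℤ_[p]) (1 : Ω ≃ₐ[K] Ω) :
        Matrix.GeneralLinearGroup (Fin 1) ℤ_[p]) : Matrix (Fin 1) (Fin 1) ℤ_[p]).map
          (PadicInt.toZModPow k) = 1 := by
      intro k
      rw [MonoidHom.one_apply, Units.val_one, Matrix.map_one _ (map_zero _) (map_one _)]
    have h := num_main p S (d := 1) 1 continuous_const (fun _ _ => rfl) F n hdeg hun a a' v v'
      (fun k => by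
        have h2 := hK k
        simp only at h2 ⊢
        rw [← h2]
        exact card_char _ (fun _ => hone k) _)
      (fun k => by
        have h2 := hF k
        simp only at h2 ⊢
        rw [← h2]
        exact card_char _ (fun _ => hone k) _)
    rw [Nat.cast_one] at h
    exact h
  refine ⟨h1, fun δ δ' ha ha' => ?_⟩
  have h2 := r2_le (K := K) (F := F)
  rw [hdeg] at h2
  have h3 : (p : ℝ) ^ n * InfinitePlace.nrComplexPlaces K ≤ InfinitePlace.nrComplexPlaces F := by
    exact_mod_cast h2
  have h4 : (a : ℝ) = InfinitePlace.nrComplexPlaces K + 1 + δ := by exact_mod_cast ha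
  have h5 : (a' : ℝ) = InfinitePlace.nrComplexPlaces F + 1 + δ' := by exact_mod_cast ha'
  rw [h4, h5] at h1
  nlinarith

end Pool.Agent.Results.MP_5f2860_nt.DefectInPExtensions
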